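import Pool.Agent.W205.K5.Stm0

set_option autoImplicit false

namespace Pool.Agent.W390.K5

open Pool.Agent.W205.K5

theorem rho_ge {ρ : ℝ} (h0 : 0 < ρ) (hρ : ρ ^ 5 + (1 - ρ / 5) ^ 5 = 1) : 10 / 11 ≤ ρ := by
  by_contra hlt
  push Not at hlt
  have h4 : ρ ^ 4 ≤ (10 / 11) ^ 4 := pow_le_pow_left₀ h0.le hlt.le 4
  have h3 : ρ ^ 3 ≤ (10 / 11) ^ 3 := pow_le_pow_left₀ h0.le hlt.le 3
  have h2 : 2 / 5 * ρ - 2 / 25 * ρ ^ 2 ≤ 2 / 5 * (10 / 11) - 2 / 25 * (10 / 11) ^ 2 := by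
    nlinarith [mul_nonneg (sub_nonneg.mpr hlt.le) (sub_nonneg.mpr hlt.le)]
  have he : ρ * (3124 / 3125 * ρ ^ 4 + 1 / 125 * ρ ^ 3 + (2 / 5 * ρ - 2 / 25 * ρ ^ 2) - 1) = 0 := by
    have : ρ * (3124 / 3125 * ρ ^ 4 + 1 / 125 * ρ ^ 3 + (2 / 5 * ρ - 2 / 25 * ρ ^ 2) - 1) =
        ρ ^ 5 + (1 - ρ / 5) ^ 5 - 1 := by ring
    rw [this, hρ]; ring
  rcases mul_eq_zero.mp he with h | h
  · exact h0.ne' h
  · have h5 : (10 / 11 : ℝ) ^ 4 * (3124 / 3125) + 1 / 125 * (10 / 11) ^ 3 +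
      (2 / 5 * (10 / 11) - 2 / 25 * (10 / 11) ^ 2) - 1 < 0 := by norm_num
    linarith

theorem core (c0 c1 c2 c3 c4 c5 w0 w1 w2 w3 w4 g0 g1 g2 g3 : ℝ)
    (h12 : 0 ≤ c1 - c2) (h23 : 0 ≤ c2 - c3) (h34 : 0 ≤ c3 - c4) (h4 : 0 ≤ c4) (h0 : 0 ≤ c0)
    (hsum : c0 + c1 + c2 + c3 + c4 + c5 = 1) (h01 : 0 ≤ c0 / 2 - c1) (hg0 : 0 ≤ g0)
    (hw0 : g0 / 2 ≤ w0) (q4 : 4 - g3 ≤ w4) (q4' : g3 ≤ g2 + w3) (q3 : 3 - g2 ≤ w3)
    (q3' : g2 ≤ g1 + w2) (q2 : 2 - g1 ≤ w2) (q2' : g1 ≤ g0 + w1) (q1 : 1 - g0 ≤ w1) :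
    1 - c0 ≤ c5 + c4 * w4 + c3 * w3 + c2 * w2 + c1 * w1 + c0 * w0 := by
  have p4 := mul_nonneg h4 (sub_nonneg.mpr q4)
  have p4' := mul_nonneg h4 (sub_nonneg.mpr q4')
  have p3 := mul_nonneg h34 (sub_nonneg.mpr q3)
  have p3' := mul_nonneg (show 0 ≤ c3 by linarith) (sub_nonneg.mpr q3')
  have p2 := mul_nonneg h23 (sub_nonneg.mpr q2)
  have p2' := mul_nonneg (show 0 ≤ c2 by linarith) (sub_nonneg.mpr q2')
  have p1 := mul_nonneg h12 (sub_nonneg.mpr q1)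
  have p0 := mul_nonneg h0 (sub_nonneg.mpr hw0)
  have p00 := mul_nonneg h01 hg0
  have key : c5 + c4 * w4 + c3 * w3 + c2 * w2 + c1 * w1 + c0 * w0 - (1 - c0) =
      c4 * (w4 - (4 - g3)) + c4 * (g2 + w3 - g3) + (c3 - c4) * (w3 - (3 - g2)) +
      c3 * (g1 + w2 - g2) + (c2 - c3) * (w2 - (2 - g1)) + c2 * (g0 + w1 - g1) +
      (c1 - c2) * (w1 - (1 - g0)) + c0 * (w0 - g0 / 2) + (c0 / 2 - c1) * g0 := by
    linear_combination hsum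
  linarith

theorem piece51 (_hL : S_LINE) (hC : S_CHORD) : PIECE 5 1 := by
  intro w g hs hg1 hg2 ρ h0 h1 hρ
  have hρ' : ρ ^ 5 + (1 - ρ / 5) ^ 5 = 1 := by
    have := hρ
    push_cast at this
    exact this
  have hr := rho_ge h0 hρ'
  have hK1 : KK 1 = 0 := by norm_num [KK]
  have hK2 : KK (1 + 1) = 1 / 2 := by norm_num [KK]
  have hch := hC 5 w g (by norm_num) hs 1 (by norm_num) (by norm_num) hg1 hg2
  rw [hK1, hK2] at hch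
  norm_num at hch
  have hw0 : g 0 / 2 ≤ w 0 := by linarith
  have hg0 : 0 < g 0 := hs.gp 0 (by norm_num)
  have a0 := hs.add 0 (by norm_num)
  have a1 := hs.add 1 (by norm_num)
  have a2 := hs.add 2 (by norm_num)
  have a3 := hs.add 3 (by norm_num)
  norm_num at a0 a1 a2 a3
  have j1 := hs.jen 1 (by norm_num)
  have j2 := hs.jen 2 (by norm_num)
  have j3 := hs.jen 3 (by norm_num)
  have j4 := hs.jen 4 (by norm_num)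
  norm_num at j1 j2 j3 j4
  have w5 := hs.wk
  set q : ℝ := 1 - ρ with hq
  have hq0 : 0 < q := by rw [hq]; linarith
  have hqr : q ≤ ρ / 10 := by rw [hq]; linarith
  have hTh : Th 5 ρ (fun j => w (5 - j)) = q ^ 5 * w 5 + 5 * q ^ 4 * ρ * w 4 +
      10 * q ^ 3 * ρ ^ 2 * w 3 + 10 * q ^ 2 * ρ ^ 3 * w 2 + 5 * q * ρ ^ 4 * w 1 + ρ ^ 5 * w 0 := by
    have c2 : Nat.choose 5 2 = 10 := by decide
    have c3 : Nat.choose 5 3 = 10 := by decide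
    simp [Th, Finset.sum_range_succ, c2, c3, ← hq]
  rw [hTh, w5]
  have h12 : 0 ≤ 5 * q * ρ ^ 4 - 10 * q ^ 2 * ρ ^ 3 := by
    have : 5 * q * ρ ^ 4 - 10 * q ^ 2 * ρ ^ 3 = 5 * q * ρ ^ 3 * (ρ - 2 * q) := by ring
    rw [this]
    have : 0 ≤ ρ - 2 * q := by linarith
    positivity
  have h23 : 0 ≤ 10 * q ^ 2 * ρ ^ 3 - 10 * q ^ 3 * ρ ^ 2 := by
    have : 10 * q ^ 2 * ρ ^ 3 - 10 * q ^ 3 * ρ ^ 2 = 10 * q ^ 2 * ρ ^ 2 * (ρ - q) := by ring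
    rw [this]
    have : 0 ≤ ρ - q := by linarith
    positivity
  have h34 : 0 ≤ 10 * q ^ 3 * ρ ^ 2 - 5 * q ^ 4 * ρ := by
    have : 10 * q ^ 3 * ρ ^ 2 - 5 * q ^ 4 * ρ = 5 * q ^ 3 * ρ * (2 * ρ - q) := by ring
    rw [this]
    have : 0 ≤ 2 * ρ - q := by linarith
    positivity
  have h4 : 0 ≤ 5 * q ^ 4 * ρ := by positivity
  have hsum : ρ ^ 5 + 5 * q * ρ ^ 4 + 10 * q ^ 2 * ρ ^ 3 + 10 * q ^ 3 * ρ ^ 2 + 5 * q ^ 4 * ρ +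
      q ^ 5 = 1 := by
    rw [hq]; ring
  have h01 : 0 ≤ ρ ^ 5 / 2 - 5 * q * ρ ^ 4 := by
    have : ρ ^ 5 / 2 - 5 * q * ρ ^ 4 = ρ ^ 4 / 2 * (ρ - 10 * q) := by ring
    rw [this]
    have : 0 ≤ ρ - 10 * q := by linarith
    positivity
  have := core (ρ ^ 5) _ _ _ _ (q ^ 5) (w 0) (w 1) (w 2) (w 3) (w 4) (g 0) (g 1) (g 2) (g 3)
    h12 h23 h34 h4 (by positivity) hsum h01 hg0.le hw0 (by linarith) (by linarith) (by linarith)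
    (by linarith) (by linarith) (by linarith) (by linarith)
  linarith

end Pool.Agent.W390.K5
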